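import Pool.Agent.H74.G.R_seed8.W564.SC.Defs

/-!
# Project SC, part GC: good charts exist
-/

open scoped Manifold ContDiff Topology
open Filter Set Metric

universe u

namespace Pool.Agent.W699.SC

open Pool.Agent.H718R2.G Pool.Agent.W564.SC

/-- translation and homothety -/
noncomputable def hom {n : ℕ} (c : V n) (ε : ℝ) (hε : ε ≠ 0) : V n ≃ₜ V n where
  toFun v := ε⁻¹ • (v - c)
  invFun w := ε • w + c
  left_inv v := by
    change ε • ε⁻¹ • (v - c) + c = v
    rw [smul_smul, mul_inv_cancel₀ hε, one_smul, sub_add_cancel]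
  right_inv w := by
    change ε⁻¹ • (ε • w + c - c) = w
    rw [add_sub_cancel_right, smul_smul, inv_mul_cancel₀ hε, one_smul]
  continuous_toFun := by fun_prop
  continuous_invFun := by fun_prop

theorem gc : S_GC.{u} := by
  intro n N _ _ _ z
  set φ : OpenPartialHomeomorph N (V n) := chartAt (V n) z with hφ
  have hs : z ∈ φ.source := mem_chart_source _ z
  have ht : φ z ∈ φ.target := φ.map_source hs
  have hm : φ ∈ IsManifold.maximalAtlas (𝓡 n) ∞ N := IsManifold.chart_mem_maximalAtlas z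
  obtain ⟨ε, hε, hball⟩ := Metric.nhds_basis_closedBall.mem_iff.mp (φ.open_target.mem_nhds ht)
  have h1 : ContDiff ℝ ∞ (fun v : V n => ε⁻¹ • (v - φ z)) := by fun_prop
  have h2 : ContDiff ℝ ∞ (fun w : V n => ε • w + φ z) := by fun_prop
  refine ⟨φ.transHomeomorph (hom (φ z) ε hε.ne'), ?_, ?_, ?_, ?_⟩
  · apply OpenPartialHomeomorph.mem_maximalAtlas_of_contMDiffOn
    · have : ContMDiffOn (𝓡 n) (𝓡 n) ∞ ((fun v : V n => ε⁻¹ • (v - φ z)) ∘ φ) φ.source :=
        h1.contMDiff.comp_contMDiffOn (contMDiffOn_of_mem_maximalAtlas hm)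
      exact this
    · have : ContMDiffOn (𝓡 n) (𝓡 n) ∞ (φ.symm ∘ (fun w : V n => ε • w + φ z))
          ((fun w : V n => ε • w + φ z) ⁻¹' φ.target) :=
        (contMDiffOn_symm_of_mem_maximalAtlas hm).comp h2.contMDiff.contMDiffOn (fun w hw => hw)
      exact this
  · exact hs
  · change ε⁻¹ • (φ z - φ z) = 0
    rw [sub_self, smul_zero]
  · intro w hw
    change ε • w + φ z ∈ φ.target
    apply hball
    rw [mem_closedBall, dist_eq_norm, add_sub_cancel_right, norm_smul, Real.norm_eq_abs,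
      abs_of_pos hε]
    rw [mem_closedBall, dist_zero_right] at hw
    nlinarith

end Pool.Agent.W699.SC
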